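import Pool.Agent.Y34.HB.Stm2
import Pool.Agent.Y155.HB.Slab

/-!
# Orbits of geometric actions on CAT(0) spaces grow at most exponentially
-/

set_option autoImplicit false

universe u v

open Metric Set Filter Topology
open Pool.Agent.TH60.FP Pool.Agent.Y34.HB Pool.Agent.Y155.HB
open scoped Pointwise

namespace Pool.Agent.Q117.WS

variable {X : Type u} [MetricSpace X] {G : Type v} [Group G] [MulAction G X]

/-- every point is within `ρ` of the orbit -/
theorem cocompact (hG : Geo X G) (x0 : X) : ∃ ρ : ℝ, 1 ≤ ρ ∧ ∀ x : X, ∃ g : G,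
    dist (g • x) x0 ≤ ρ := by
  obtain ⟨K, hK, hKc⟩ := hG.cc
  obtain ⟨D, hD⟩ := hK.isBounded.subset_closedBall x0
  refine ⟨max 1 D, le_max_left _ _, fun x => ?_⟩
  obtain ⟨g, hg⟩ := hKc x
  exact ⟨g, (mem_closedBall.1 (hD hg)).trans (le_max_right _ _)⟩

theorem fin_ball (hG : Geo X G) (x0 : X) (R : ℝ) : {γ : G | dist (γ • x0) x0 ≤ R}.Finite := by
  have := hG.proper
  have := hG.isom
  have := hG.disc
  have hfin : {g : G | ((g • ·) '' (closedBall x0 R) ∩ (closedBall x0 R)).Nonempty}.Finite :=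
    finite_disjoint_inter_image (isCompact_closedBall x0 R) (isCompact_closedBall x0 R)
  rcases lt_or_ge R 0 with hR | hR
  · convert Set.finite_empty
    ext γ
    simp only [Set.mem_ofPred_eq, mem_empty_iff_false, iff_false, not_le]
    exact hR.trans_le dist_nonneg
  · refine hfin.subset fun γ hγ => ?_
    exact ⟨γ • x0, ⟨x0, mem_closedBall_self hR, rfl⟩, mem_closedBall.2 hγ⟩

theorem geod_point (hG : Geo X G) (p q : X) (n : ℕ) (h : dist p q ≤ n + 1) :
    ∃ m : X, dist p m ≤ n ∧ dist m q ≤ 1 := by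
  have := hG.proper
  rcases le_or_gt (dist p q) (n : ℝ) with h1 | h1
  · exact ⟨q, h1, by simp⟩
  have hpos : 0 < dist p q := lt_of_le_of_lt (Nat.cast_nonneg n) h1
  have hl0 : (0 : ℝ) ≤ n / dist p q := by positivity
  have hl1 : (n : ℝ) / dist p q ≤ 1 := (div_le_one hpos).2 h1.le
  obtain ⟨m, hm⟩ := dv_exists hG.cn p q (n / dist p q) hl0 hl1
  refine ⟨m, ?_, ?_⟩
  · have := hm.left hl0
    rwa [div_mul_cancel₀ _ hpos.ne'] at this
  · have := hm.right hl1
    rw [sub_mul, div_mul_cancel₀ _ hpos.ne'] at this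
    linarith

/-- orbits grow at most exponentially -/
theorem grow (hG : Geo X G) (x0 : X) : ∃ A : ℝ, 0 < A ∧ ∀ R : ℝ, 0 ≤ R →
    ({γ : G | dist (γ • x0) x0 ≤ R}.ncard : ℝ) ≤ Real.exp (A * (R + 1)) := by
  classical
  have := hG.isom
  obtain ⟨ρ, hρ1, hρ⟩ := cocompact hG x0
  set S : Finset G := (fin_ball hG x0 (2 * ρ + 1)).toFinset with hS
  have hmem : ∀ γ : G, γ ∈ S ↔ dist (γ • x0) x0 ≤ 2 * ρ + 1 := by
    intro γ
    rw [hS, Set.Finite.mem_toFinset]
    rfl
  have key : ∀ (n : ℕ) (γ : G) (m : X), dist x0 m ≤ n → dist (γ • x0) m ≤ ρ →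
      γ ∈ S ^ (n + 1) := by
    intro n
    induction n with
    | zero =>
      intro γ m h1 h2
      rw [zero_add, pow_one, hmem]
      have h3 := dist_triangle_right (γ • x0) x0 m
      rw [Nat.cast_zero] at h1
      linarith
    | succ n ih =>
      intro γ m h1 h2
      push_cast at h1
      obtain ⟨m', h3, h4⟩ := geod_point hG x0 m n h1
      obtain ⟨b, hb⟩ := hρ m'
      have h5 : dist (b⁻¹ • x0) m' ≤ ρ := by
        rw [← dist_smul b, smul_inv_smul, dist_comm]
        exact hb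
      have h6 := ih b⁻¹ m' h3 h5
      rw [pow_succ]
      refine Finset.mem_mul.2 ⟨b⁻¹, h6, b * γ, ?_, by group⟩
      rw [hmem]
      have h7 : dist ((b * γ) • x0) x0 = dist (γ • x0) (b⁻¹ • x0) := by
        rw [mul_smul, ← dist_smul b (γ • x0) (b⁻¹ • x0), smul_inv_smul]
      rw [h7]
      have h8 := dist_triangle4_right (γ • x0) (b⁻¹ • x0) m m'
      rw [dist_comm m m'] at h8
      linarith
  have hcard : 1 ≤ S.card := Finset.card_pos.2 ⟨1, (hmem 1).2 (by rw [one_smul, dist_self]; linarith)⟩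
  have hc1 : (1 : ℝ) ≤ S.card := by exact_mod_cast hcard
  have hlog : 0 ≤ Real.log S.card := Real.log_nonneg hc1
  refine ⟨2 * Real.log S.card + 1, by linarith, fun R hR => ?_⟩
  have h1 : {γ : G | dist (γ • x0) x0 ≤ R} ⊆ ↑(S ^ (⌈R⌉₊ + 1)) := by
    intro γ hγ
    refine key _ γ (γ • x0) ?_ (by rw [dist_self]; linarith)
    rw [dist_comm]
    exact (show dist (γ • x0) x0 ≤ R from hγ).trans (Nat.le_ceil R)
  have h2 : ({γ : G | dist (γ • x0) x0 ≤ R}.ncard : ℝ) ≤ (S.card : ℝ) ^ (⌈R⌉₊ + 1) := by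
    have h3 := Set.ncard_le_ncard h1 (Finset.finite_toSet _)
    rw [Set.ncard_coe_finset] at h3
    have h4 := h3.trans (Finset.card_pow_le (s := S) (n := ⌈R⌉₊ + 1))
    exact_mod_cast h4
  refine h2.trans ?_
  have h3 : (⌈R⌉₊ : ℝ) ≤ R + 1 := (Nat.ceil_lt_add_one hR).le
  rw [← Real.log_le_iff_le_exp (by positivity), Real.log_pow]
  push_cast
  nlinarith

end Pool.Agent.Q117.WS
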