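import Pool.Agent.Q117.WS.Grow
import Pool.Agent.Y34.HB.WideT
import Pool.Agent.Y901.HB.Inv
import Pool.Agent.TH60.FP.Close
import Pool.Agent.TH60.FP.Cen
import Pool.Agent.TH60.FP.Sel
import Pool.Agent.TH60.FP.Bnd
import Pool.Agent.TH60.FP.Strip
import Pool.Agent.TH60.FP.Trans
import Pool.Agent.TH60.FP.Mid
import Pool.Agent.TH60.FP.Dist

/-!
# Wide flat strips along axes give `ℤ²`
-/

set_option autoImplicit false

universe u v

open Metric Set Filter Topology
open Pool.Agent.TH60.FP Pool.Agent.Y34.HB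

namespace Pool.Agent.Q117.WS

theorem dd_all : C_DD.{u} := t_dd t_strip (t_trans t_strip) (t_mid t_strip)

theorem close_all : X_CLOSE.{u, v} :=
  t_close dd_all t_cen t_sel (t_bnd dd_all t_cen t_park)

theorem wide_all : S_WIDE.{u, v} := Pool.Agent.Y34.HB.WideT.t close_all

variable {X : Type u} [MetricSpace X] {G : Type v} [Group G] [MulAction G X]

theorem axis_smul [IsIsometricSMul G X] {g h : G} {τ : ℝ} {c : ℝ → X} (hc : Axis g τ c)
    (hh : Commute g h) : Axis g τ (fun t => h • c t) := by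
  refine ⟨(isometry_smul X h).comp hc.1, fun t => ?_⟩
  simp only
  rw [← mul_smul, hh.eq, mul_smul, hc.2]

/-- if `z`, `x`, `y` are axes and `S` is the strip between `x` and `y` then the middle line is the
midpoint of `x` and `y` for the distance `DD` -/
theorem mid_axis (hG : Geo X G) {g : G} {τ : ℝ} (hτ : 0 < τ) {x y : ℝ → X} (hx : Axis g τ x)
    (hy : Axis g τ y) : ∃ m : ℝ → X, Axis g τ m ∧ ∀ z : ℝ → X, Axis g τ z →
      DD z m ^ 2 ≤ (DD z x ^ 2 + DD z y ^ 2) / 2 - DD x y ^ 2 / 4 := by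
  have := hG.isom
  have := hG.proper
  obtain ⟨S, o, hS, hS0, hS1, hSg, hSm⟩ := Pool.Agent.Y901.HB.t X G hG g τ hτ x y hx hy
  have hd0 : 0 ≤ DD x y := infDist_nonneg
  refine ⟨fun t => S t (DD x y / 2), ⟨?_, fun t => ?_⟩, fun z hz => ?_⟩
  · refine Isometry.of_dist_eq fun s t => ?_
    have h1 := hS s (DD x y / 2) t (DD x y / 2) (by linarith) (by linarith) (by linarith)
      (by linarith)
    rw [Real.dist_eq]
    rw [sub_self, zero_pow two_ne_zero, add_zero, ← sq_abs (s - t)] at h1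
    exact (sq_eq_sq₀ dist_nonneg (abs_nonneg _)).1 h1
  · exact hSg t _ (by linarith) (by linarith)
  · -- the parameter of the projection of `z 0`
    have hpar : Par z x := Pool.Agent.Y901.HB.par_axes hτ hz hx
    obtain ⟨-, o1, ho1⟩ := (dd_all X hG.cn).1 z x hz.1 hx.1 hpar
    have hsy1 : Sy x (Dist.Sh z (-o1)) := by
      intro s t
      unfold Dist.Sh
      rw [dist_comm, ho1, dist_comm, ho1]
      ring
    have hsy2 : Sy x (Dist.Sh y o) := by
      intro s t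
      unfold Dist.Sh
      rw [← hS0 s, ← hS1 t, ← hS0 0, ← hS1 0, hS _ _ _ _ le_rfl hd0 hd0 le_rfl,
        hS _ _ _ _ le_rfl hd0 hd0 le_rfl]
      ring
    have hsy3 : Sy (Dist.Sh z (-o1)) (Dist.Sh y o) :=
      t_trans t_strip X hG.cn x _ _ hx.1 (Dist.iso_sh hz.1 _) (Dist.iso_sh hy.1 _) hsy1 hsy2
    have e1 : dist (z 0) (x o1) ^ 2 = DD z x ^ 2 := by
      rw [ho1]; ring
    have e2 : dist (z 0) (y (o1 + o)) ^ 2 = DD z y ^ 2 := by
      have h1 := hsy3 o1 o1
      have h2 : Dist.Sh z (-o1) o1 = z 0 := by unfold Dist.Sh; rw [add_neg_cancel]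
      have h3 : Dist.Sh y o o1 = y (o1 + o) := rfl
      rw [h2, h3, sub_self, zero_pow two_ne_zero, add_zero] at h1
      rw [h1, ← Dist.dd_sy hsy3, Dist.dd_sh, Dist.dd_sh_left t_strip hG.cn hz.1 hy.1
        (Pool.Agent.Y901.HB.par_axes hτ hz hy)]
    have h1 := hSm o1 (z 0)
    rw [e1, e2] at h1
    have h2 : DD z (fun t => S t (DD x y / 2)) ≤ dist (z 0) (S o1 (DD x y / 2)) :=
      infDist_le_dist_of_mem (mem_range_self o1)
    exact (pow_le_pow_left₀ infDist_nonneg h2 2).trans h1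

/-- an axis almost fixed by the centraliser -/
theorem cent (hG : Geo X G) (g : G) (τ : ℝ) (hτ : 0 < τ) (c : ℝ → X) (hc : Axis g τ c)
    (B : ℝ) (hB : ∀ h : G, Commute g h → DD c (fun t => h • c t) ≤ B) :
    ∃ c' : ℝ → X, Axis g τ c' ∧ ∀ h : G, Commute g h → DD c' (fun t => h • c' t) ≤ 1 := by
  have := hG.isom
  have := hG.proper
  have hcomm : ∀ a : Subgroup.centralizer ({g} : Set G), Commute g (a : G) := fun a =>
    Subgroup.mem_centralizer_iff.1 a.2 g rfl
  obtain ⟨c', hc', h1, -⟩ := t_cen (ℝ → X) (fun c => Axis g τ c) DD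
    (Subgroup.centralizer ({g} : Set G))
    (fun a x hx => axis_smul hx (hcomm a))
    (fun x y _ _ => infDist_nonneg)
    (fun x y hx hy => (dd_all X hG.cn).2.1 x y hx.1 hy.1 (Pool.Agent.Y901.HB.par_axes hτ hx hy))
    (fun x y z hx hy hz => (dd_all X hG.cn).2.2.1 x y z hx.1 hy.1 hz.1
      (Pool.Agent.Y901.HB.par_axes hτ hx hy) (Pool.Agent.Y901.HB.par_axes hτ hy hz))
    (fun a x y _ _ => Close.DD_smul (a : G) x y)
    (fun x y hx hy => mid_axis hG hτ hx hy)
    c B 1 hc one_pos (fun a => hB a (hcomm a))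
  refine ⟨c', hc', fun h hh => ?_⟩
  exact h1 ⟨h, Subgroup.mem_centralizer_iff.2 (by rintro _ rfl; exact hh)⟩

theorem axis_zpow [IsIsometricSMul G X] {g : G} {τ : ℝ} {c : ℝ → X} (hc : Axis g τ c) (m : ℤ)
    (t : ℝ) : g ^ m • c t = c (t + m * τ) := by
  have hnat : ∀ (n : ℕ) (t : ℝ), g ^ n • c t = c (t + n * τ) := by
    intro n
    induction n with
    | zero => intro t; simp
    | succ n ih =>
      intro t
      rw [pow_succ, mul_smul, hc.2, ih]
      push_cast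
      congr 1
      ring
  obtain ⟨n, rfl | rfl⟩ := m.eq_nat_or_neg
  · rw [zpow_natCast, hnat]
    push_cast
    rfl
  · rw [zpow_neg, zpow_natCast, inv_smul_eq_iff, hnat]
    push_cast
    congr 1
    ring

/-- all axes of `g` are close to an axis which is almost fixed by the centraliser -/
theorem strip_bound (hG : Geo X G) (x0 : X) : ∃ A₀ ρ : ℝ, 0 < A₀ ∧ 1 ≤ ρ ∧
    (∀ x : X, ∃ g : G, dist (g • x) x0 ≤ ρ) ∧
    (∀ R : ℝ, 0 ≤ R → {γ : G | dist (γ • x0) x0 ≤ R}.Finite ∧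
      ({γ : G | dist (γ • x0) x0 ≤ R}.ncard : ℝ) ≤ Real.exp (A₀ * (R + 1))) ∧
    (¬ HasZ2 G → ∀ (g : G) (τ : ℝ), 0 < τ → ∀ c : ℝ → X, Axis g τ c →
      ∃ c' : ℝ → X, Axis g τ c' ∧ (∀ h : G, Commute g h → DD c' (fun t => h • c' t) ≤ 1) ∧
        ∀ e : ℝ → X, Axis g τ e →
          DD c' e ≤ (2 * ρ + 2) * Real.exp (A₀ * (2 * ρ + τ + 1))) := by
  classical
  have := hG.isom
  have := hG.proper
  obtain ⟨A₀, hA₀, hgrow⟩ := grow hG x0
  obtain ⟨ρ, hρ1, hρ⟩ := cocompact hG x0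
  refine ⟨A₀, ρ, hA₀, hρ1, hρ, fun R hR => ⟨fin_ball hG x0 R, hgrow R hR⟩, ?_⟩
  intro hZ g τ hτ c hc
  obtain ⟨d1, d2, d3, d4, d5⟩ := dd_all X hG.cn
  -- the orbit of `c` under the centraliser is bounded
  have hbd : ∃ B : ℝ, ∀ h : G, Commute g h → DD c (fun t => h • c t) ≤ B := by
    by_contra hcon
    push Not at hcon
    refine hZ (wide_all X G hG τ hτ fun n => ?_)
    obtain ⟨h, hh, hn⟩ := hcon n
    obtain ⟨S, o, hS, -, -, hSg, -⟩ :=
      Pool.Agent.Y901.HB.t X G hG g τ hτ c _ hc (axis_smul hc hh)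
    refine ⟨g, S, fun t s t' s' h1 h2 h3 h4 => hS t s t' s' h1 (h2.trans hn.le) h3
      (h4.trans hn.le), fun t s h1 h2 => hSg t s h1 (h2.trans hn.le)⟩
  obtain ⟨B, hB⟩ := hbd
  obtain ⟨c', hc', hfix⟩ := cent hG g τ hτ c hc B hB
  refine ⟨c', hc', hfix, fun e he => ?_⟩
  obtain ⟨S, o, hS, hS0, -, hSg, -⟩ := Pool.Agent.Y901.HB.t X G hG g τ hτ c' e hc' he
  set D := DD c' e with hD
  have hD0 : 0 ≤ D := infDist_nonneg
  set s₀ : ℝ := 2 * ρ + 2 with hs₀
  have hs₀pos : 0 < s₀ := by rw [hs₀]; linarith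
  set n : ℕ := ⌊D / s₀⌋₊ with hn
  have hle : ∀ j : ℕ, j ≤ n → (j : ℝ) * s₀ ≤ D := by
    intro j hj
    have h1 : (j : ℝ) ≤ D / s₀ := (Nat.cast_le.2 hj).trans (Nat.floor_le (by positivity))
    rwa [le_div_iff₀ hs₀pos] at h1
  have hax : ∀ j : ℕ, j ≤ n → Axis g τ (fun t => S t (j * s₀)) := by
    intro j hj
    have h1 := hle j hj
    have h2 : 0 ≤ (j : ℝ) * s₀ := by positivity
    refine ⟨Isometry.of_dist_eq fun s t => ?_, fun t => hSg t _ h2 h1⟩
    have h3 := hS s (j * s₀) t (j * s₀) h2 h1 h2 h1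
    rw [sub_self, zero_pow two_ne_zero, add_zero, ← sq_abs (s - t)] at h3
    rw [Real.dist_eq]
    exact (sq_eq_sq₀ dist_nonneg (abs_nonneg _)).1 h3
  have hDDj : ∀ j : ℕ, j ≤ n → DD c' (fun t => S t (j * s₀)) = j * s₀ := by
    intro j hj
    have h1 := hle j hj
    have h2 : 0 ≤ (j : ℝ) * s₀ := by positivity
    have hsy : Sy c' (fun t => S t (j * s₀)) := by
      intro s t
      rw [← hS0 s, ← hS0 0, hS _ _ _ _ le_rfl hD0 h2 h1, hS _ _ _ _ le_rfl hD0 h2 h1]
      ring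
    rw [Dist.dd_sy hsy]
    have h3 := hS 0 0 0 (j * s₀) le_rfl hD0 h2 h1
    rw [hS0] at h3
    rw [← sq_eq_sq₀ dist_nonneg h2, h3]
    ring
  choose b hb using fun j : ℕ => hρ (S 0 (j * s₀))
  have hmem : ∀ j : ℕ, j ≤ n → b j * g * (b j)⁻¹ ∈ {γ : G | dist (γ • x0) x0 ≤ 2 * ρ + τ} := by
    intro j hj
    show dist ((b j * g * (b j)⁻¹) • x0) x0 ≤ 2 * ρ + τ
    have h1 : dist ((b j * g * (b j)⁻¹) • x0) (b j • g • S 0 (j * s₀)) ≤ ρ := by
      rw [mul_smul, mul_smul, dist_smul, dist_smul, ← dist_smul (b j), smul_inv_smul, dist_comm]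
      exact hb j
    have h2 : dist (b j • g • S 0 (j * s₀)) (b j • S 0 (j * s₀)) = τ := by
      rw [dist_smul]
      have h3 := (hax j hj).2 0
      simp only at h3
      rw [h3, (hax j hj).1.dist_eq, Real.dist_eq]
      rw [zero_add, sub_zero, abs_of_pos hτ]
    have h4 := dist_triangle4 ((b j * g * (b j)⁻¹) • x0) (b j • g • S 0 (j * s₀))
      (b j • S 0 (j * s₀)) x0
    have h5 := hb j
    linarith
  have hinj : ∀ i j : ℕ, i < j → j ≤ n → b i * g * (b i)⁻¹ ≠ b j * g * (b j)⁻¹ := by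
    intro i j hij hj heq
    have hi : i ≤ n := hij.le.trans hj
    set k : G := (b j)⁻¹ * b i with hk
    have hkg : Commute g k := by
      have h1 : b i * g = b j * g * (b j)⁻¹ * b i := by rw [← heq]; group
      show g * ((b j)⁻¹ * b i) = ((b j)⁻¹ * b i) * g
      rw [mul_assoc ((b j)⁻¹), h1]
      group
    have h1 := hfix k hkg
    have h2 : DD (fun t => k • c' t) (fun t => k • S t (i * s₀)) = i * s₀ := by
      rw [Close.DD_smul k c' (fun t => S t (i * s₀)), hDDj i hi]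
    have h3 : DD (fun t => k • S t (i * s₀)) (fun t => S t (j * s₀)) ≤ 2 * ρ := by
      have h4 : DD (fun t => k • S t (i * s₀)) (fun t => S t (j * s₀)) ≤
          dist (k • S 0 (i * s₀)) (S 0 (j * s₀)) :=
        Close.DD_le (fun t => k • S t (i * s₀)) (fun t => S t (j * s₀)) 0
      have h5 : dist (k • S 0 (i * s₀)) (S 0 (j * s₀)) =
          dist (b i • S 0 (i * s₀)) (b j • S 0 (j * s₀)) := by
        rw [hk, mul_smul, ← dist_smul (b j), smul_inv_smul]
      have h6 := dist_triangle_right (b i • S 0 (i * s₀)) (b j • S 0 (j * s₀)) x0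
      have h7 := hb i
      have h8 := hb j
      linarith
    have a1 := axis_smul hc' hkg
    have a2 := axis_smul (hax i hi) hkg
    have a3 := hax j hj
    have p := fun {x y : ℝ → X} (hx : Axis g τ x) (hy : Axis g τ y) =>
      Pool.Agent.Y901.HB.par_axes hτ hx hy
    have h9 := d3 c' (fun t => k • c' t) (fun t => S t (j * s₀)) hc'.1 a1.1 a3.1 (p hc' a1) (p a1 a3)
    have h10 := d3 (fun t => k • c' t) (fun t => k • S t (i * s₀)) (fun t => S t (j * s₀)) a1.1
      a2.1 a3.1 (p a1 a2) (p a2 a3)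
    rw [hDDj j hj] at h9
    have h11 : (i : ℝ) + 1 ≤ j := by exact_mod_cast hij
    have h12 : ((i : ℝ) + 1) * s₀ ≤ j * s₀ := mul_le_mul_of_nonneg_right h11 hs₀pos.le
    rw [hs₀] at h12 h9 h10 h2
    linarith
  have hcard : ((n + 1 : ℕ) : ℝ) ≤ Real.exp (A₀ * (2 * ρ + τ + 1)) := by
    refine le_trans ?_ (hgrow (2 * ρ + τ) (by linarith))
    have h1 : (Finset.range (n + 1)).card ≤ {γ : G | dist (γ • x0) x0 ≤ 2 * ρ + τ}.ncard := by
      rw [← Set.ncard_coe_finset]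
      refine Set.ncard_le_ncard_of_injOn (fun j => b j * g * (b j)⁻¹) ?_ ?_ (fin_ball hG x0 _)
      · intro j hj
        exact hmem j (by simpa [Nat.lt_succ_iff] using hj)
      · intro i hi j hj hij
        have hi' : i ≤ n := by simpa [Nat.lt_succ_iff] using hi
        have hj' : j ≤ n := by simpa [Nat.lt_succ_iff] using hj
        rcases lt_trichotomy i j with h | h | h
        · exact absurd hij (hinj i j h hj')
        · exact h
        · exact absurd hij.symm (hinj j i h hi')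
    rw [Finset.card_range] at h1
    exact_mod_cast h1
  have h1 : D / s₀ < n + 1 := Nat.lt_floor_add_one _
  rw [div_lt_iff₀ hs₀pos] at h1
  push_cast at hcard
  calc D ≤ (n + 1) * s₀ := h1.le
    _ ≤ Real.exp (A₀ * (2 * ρ + τ + 1)) * s₀ := mul_le_mul_of_nonneg_right hcard hs₀pos.le
    _ = s₀ * Real.exp (A₀ * (2 * ρ + τ + 1)) := mul_comm _ _

end Pool.Agent.Q117.WS
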