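import Pool.Agent.Q117.WS.Main

/-!
# A geodesic segment which is moved to its continuation lies on an axis
-/

set_option autoImplicit false

universe u v

open Metric Set Filter Topology
open Pool.Agent.TH60.FP Pool.Agent.Y34.HB

namespace Pool.Agent.Q117.WS

variable {X : Type u} [MetricSpace X] {G : Type v} [Group G] [MulAction G X]

theorem orb (hX : CN X) [IsIsometricSMul G X] {g : G} {τ : ℝ} (hτ : 0 < τ) {p : X}
    (h1 : dist p (g • p) = τ) (h2 : dist p (g ^ 2 • p) = 2 * τ) :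
    ∀ n : ℕ, dist p (g ^ n • p) = n * τ := by
  -- `g • p` is the midpoint
  have hmid : ∀ x : X, dist x (g • p) ^ 2 ≤
      (dist x p ^ 2 + dist x (g ^ 2 • p) ^ 2) / 2 - dist p (g ^ 2 • p) ^ 2 / 4 := by
    obtain ⟨m, hm⟩ := hX p (g ^ 2 • p)
    have e1 := hm (g • p)
    have e2 : dist (g • p) (g ^ 2 • p) = τ := by
      rw [pow_two, mul_smul, dist_smul, h1]
    rw [dist_comm (g • p) p, h1, e2, h2] at e1
    have e3 : dist (g • p) m ^ 2 ≤ 0 := by
      refine e1.trans (le_of_eq ?_)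
      ring
    have e4 : dist (g • p) m = 0 :=
      pow_eq_zero_iff two_ne_zero |>.1 (le_antisymm e3 (sq_nonneg _))
    rw [dist_eq_zero.1 e4]
    exact hm
  have key : ∀ n : ℕ, dist p (g ^ n • p) = n * τ ∧ dist p (g ^ (n + 1) • p) = (n + 1) * τ := by
    intro n
    induction n with
    | zero => simp [h1]
    | succ n ih =>
      obtain ⟨ih1, ih2⟩ := ih
      refine ⟨by push_cast; exact ih2, ?_⟩
      push_cast
      have e1 := hmid (g ^ (n + 1 + 1) • p)
      have e2 : dist (g ^ (n + 1 + 1) • p) (g • p) = (n + 1) * τ := by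
        rw [show g ^ (n + 1 + 1) = g * g ^ (n + 1) by rw [pow_succ' g (n + 1)], mul_smul,
          dist_smul, dist_comm, ih2]
      have e3 : dist (g ^ (n + 1 + 1) • p) (g ^ 2 • p) = n * τ := by
        rw [show g ^ (n + 1 + 1) = g ^ 2 * g ^ n by rw [← pow_add]; congr 1; ring, mul_smul,
          dist_smul, dist_comm, ih1]
      rw [e2, e3, h2] at e1
      have e4 : dist p (g ^ (n + 1 + 1) • p) ≤ (n + 1 + 1) * τ := by
        have e5 := dist_triangle p (g ^ (n + 1) • p) (g ^ (n + 1 + 1) • p)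
        have e6 : dist (g ^ (n + 1) • p) (g ^ (n + 1 + 1) • p) = τ := by
          rw [pow_succ g (n + 1), mul_smul, dist_smul, h1]
        rw [ih2, e6] at e5
        linarith
      refine le_antisymm e4 ?_
      rw [dist_comm p]
      have e7 : ((n + 1 + 1) * τ) ^ 2 ≤ dist (g ^ (n + 1 + 1) • p) p ^ 2 := by
        linarith
      exact (sq_le_sq₀ (by positivity) dist_nonneg).1 e7
  exact fun n => (key n).1

theorem orbz (hX : CN X) [IsIsometricSMul G X] {g : G} {τ : ℝ} (hτ : 0 < τ) {p : X}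
    (h1 : dist p (g • p) = τ) (h2 : dist p (g ^ 2 • p) = 2 * τ) (a b : ℤ) (hab : a ≤ b) :
    dist (g ^ a • p) (g ^ b • p) = ((b : ℝ) - a) * τ := by
  obtain ⟨n, hn⟩ := Int.le.dest hab
  rw [← hn, zpow_add, mul_smul, dist_smul, zpow_natCast, orb hX hτ h1 h2]
  push_cast
  ring

/-- a segment of length `2 τ` whose first half is moved to the second half lies on an axis -/
theorem seg_axis (hX : CN X) [IsIsometricSMul G X] {g : G} {τ : ℝ} (hτ : 0 < τ) {c : ℝ → X}
    (hc : ∀ s t, 0 ≤ s → s ≤ 2 * τ → 0 ≤ t → t ≤ 2 * τ → dist (c s) (c t) = |s - t|)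
    (hg : ∀ s, 0 ≤ s → s ≤ τ → g • c s = c (s + τ)) :
    ∃ c' : ℝ → X, Axis g τ c' ∧ ∀ s, 0 ≤ s → s < 2 * τ → c' s = c s := by
  have h1 : dist (c 0) (g • c 0) = τ := by
    rw [hg 0 le_rfl hτ.le, hc _ _ le_rfl (by linarith) (by linarith) (by linarith), zero_add,
      zero_sub, abs_neg, abs_of_pos hτ]
  have h2 : dist (c 0) (g ^ 2 • c 0) = 2 * τ := by
    rw [pow_two, mul_smul, hg 0 le_rfl hτ.le, hg _ (by linarith) (by linarith),
      hc _ _ le_rfl (by linarith) (by linarith) (by linarith), zero_add, zero_sub, abs_neg,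
      abs_of_pos (by linarith)]
    ring
  have hz := orbz hX hτ h1 h2
  set c' : ℝ → X := fun t => g ^ ⌊t / τ⌋ • c (t - ⌊t / τ⌋ * τ) with hc'
  have hfl0 : ∀ t : ℝ, 0 ≤ t - ⌊t / τ⌋ * τ := by
    intro t
    have := Int.floor_le (t / τ)
    rw [le_div_iff₀ hτ] at this
    linarith
  have hfl1 : ∀ t : ℝ, t - ⌊t / τ⌋ * τ < τ := by
    intro t
    have := Int.lt_floor_add_one (t / τ)
    rw [div_lt_iff₀ hτ] at this
    linarith
  have F1 : ∀ t : ℝ, dist (g ^ ⌊t / τ⌋ • c 0) (c' t) = t - ⌊t / τ⌋ * τ := by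
    intro t
    rw [hc']
    simp only
    rw [dist_smul, hc _ _ le_rfl (by linarith) (hfl0 t) (by linarith [hfl1 t]), zero_sub, abs_neg,
      abs_of_nonneg (hfl0 t)]
  have F2 : ∀ t : ℝ, dist (c' t) (g ^ (⌊t / τ⌋ + 1) • c 0) = (⌊t / τ⌋ + 1) * τ - t := by
    intro t
    rw [hc']
    simp only
    rw [zpow_add_one, mul_smul, hg 0 le_rfl hτ.le, dist_smul,
      hc _ _ (hfl0 t) (by linarith [hfl1 t]) (by linarith) (by linarith), zero_add, abs_sub_comm,
      abs_of_nonneg (by linarith [hfl1 t])]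
    ring
  have hiso : ∀ s t : ℝ, s ≤ t → dist (c' s) (c' t) = t - s := by
    intro s t hst
    have hfl : ⌊s / τ⌋ ≤ ⌊t / τ⌋ := Int.floor_le_floor (div_le_div_of_nonneg_right hst hτ.le)
    apply le_antisymm
    · rcases hfl.eq_or_lt with heq | hlt
      · rw [hc']
        simp only
        have a1 := hfl0 t
        have a2 := hfl1 t
        have a3 := hfl0 s
        rw [heq] at a3 ⊢
        rw [dist_smul, hc _ _ a3 (by linarith) a1 (by linarith), abs_sub_comm]
        rw [show t - ⌊t / τ⌋ * τ - (s - ⌊t / τ⌋ * τ) = t - s by ring, abs_of_nonneg (by linarith)]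
      · have b1 := dist_triangle4 (c' s) (g ^ (⌊s / τ⌋ + 1) • c 0) (g ^ ⌊t / τ⌋ • c 0) (c' t)
        rw [F2, F1, hz _ _ (Int.add_one_le_iff.2 hlt)] at b1
        push_cast at b1
        linarith
    · have b1 := dist_triangle4 (g ^ ⌊s / τ⌋ • c 0) (c' s) (c' t) (g ^ (⌊t / τ⌋ + 1) • c 0)
      rw [F1, F2, hz _ _ (by omega)] at b1
      push_cast at b1
      linarith
  refine ⟨c', ⟨Isometry.of_dist_eq fun s t => ?_, fun t => ?_⟩, fun s hs0 hs1 => ?_⟩
  · rw [Real.dist_eq]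
    rcases le_total s t with h | h
    · rw [hiso s t h, abs_sub_comm, abs_of_nonneg (by linarith)]
    · rw [dist_comm, hiso t s h, abs_of_nonneg (by linarith)]
  · rw [hc']
    simp only
    have e1 : (t + τ) / τ = t / τ + 1 := by field_simp
    rw [e1, Int.floor_add_one, ← mul_smul, ← zpow_one_add, add_comm 1]
    push_cast
    congr 2
    ring
  · rw [hc']
    simp only
    rcases lt_or_ge s τ with h | h
    · have e1 : ⌊s / τ⌋ = 0 := by
        rw [Int.floor_eq_zero_iff]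
        exact ⟨by positivity, (div_lt_one hτ).2 h⟩
      rw [e1]
      simp
    · have e1 : ⌊s / τ⌋ = 1 := by
        rw [Int.floor_eq_iff]
        refine ⟨?_, ?_⟩
        · push_cast
          exact (one_le_div hτ).2 h
        · push_cast
          rw [div_lt_iff₀ hτ]
          linarith
      rw [e1]
      simp only [zpow_one, Int.cast_one, one_mul]
      rw [hg _ (by linarith) (by linarith), sub_add_cancel]

/-- the width of a rectangle is the distance of the two axes -/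
theorem rect_dd (hG : Geo X G) {g : G} {τ W : ℝ} (hτ : 0 < τ) (hW : 0 ≤ W) {F : ℝ → ℝ → X}
    (hF : ∀ x y x' y', 0 ≤ x → x ≤ 2 * τ → 0 ≤ y → y ≤ W → 0 ≤ x' → x' ≤ 2 * τ → 0 ≤ y' → y' ≤ W →
      dist (F x y) (F x' y') ^ 2 = (x - x') ^ 2 + (y - y') ^ 2)
    (hg : ∀ x y, 0 ≤ x → x ≤ τ → 0 ≤ y → y ≤ W → g • F x y = F (x + τ) y) :
    ∃ c c' : ℝ → X, Axis g τ c ∧ Axis g τ c' ∧ DD c c' = W := by
  have := hG.isom
  have hline : ∀ y, 0 ≤ y → y ≤ W → ∃ c : ℝ → X, Axis g τ c ∧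
      ∀ s, 0 ≤ s → s < 2 * τ → c s = F s y := by
    intro y h0 h1
    refine seg_axis hG.cn hτ (fun s t a1 a2 a3 a4 => ?_) (fun s a1 a2 => hg s y a1 a2 h0 h1)
    have h3 := hF s y t y a1 a2 h0 h1 a3 a4 h0 h1
    rw [sub_self, zero_pow two_ne_zero, add_zero, ← sq_abs (s - t)] at h3
    exact (sq_eq_sq₀ dist_nonneg (abs_nonneg _)).1 h3
  obtain ⟨c, hc, hc1⟩ := hline 0 le_rfl hW
  obtain ⟨c', hc', hc1'⟩ := hline W hW le_rfl
  refine ⟨c, c', hc, hc', ?_⟩
  obtain ⟨hd0, o, ho⟩ := (dd_all X hG.cn).1 c c' hc.1 hc'.1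
    (Pool.Agent.Y901.HB.par_axes hτ hc hc')
  have e1 := ho 0 0
  have e2 := ho 0 τ
  rw [hc1 0 le_rfl (by linarith), hc1' 0 le_rfl (by linarith),
    hF _ _ _ _ le_rfl (by linarith) le_rfl hW le_rfl (by linarith) hW le_rfl] at e1
  rw [hc1 0 le_rfl (by linarith), hc1' τ hτ.le (by linarith),
    hF _ _ _ _ le_rfl (by linarith) le_rfl hW hτ.le (by linarith) hW le_rfl] at e2
  have e3 : o = 0 := by
    have e4 : τ * o = 0 := by nlinarith
    rcases mul_eq_zero.1 e4 with h | h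
    · exact absurd h hτ.ne'
    · exact h
  rw [e3] at e1
  have e5 : DD c c' ^ 2 = W ^ 2 := by nlinarith
  exact (sq_eq_sq₀ hd0 hW).1 e5

/-- everything together -/
theorem all_bounds (hG : Geo X G) (x0 : X) : ∃ A : ℝ, 0 < A ∧ (HasZ2 G ∨
    ∀ (g : G) (τ : ℝ), 0 < τ →
      (∀ c c' : ℝ → X, Axis g τ c → Axis g τ c' → DD c c' ≤ A * Real.exp (A * τ)) ∧
      ((∃ c : ℝ → X, Axis g τ c) → ∃ T : Finset G, (T.card : ℝ) ≤ A * Real.exp (A * τ) ∧
        ∀ h : G, Commute g h → ∃ m : ℤ, ∃ t ∈ T, h = g ^ m * t)) := by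
  classical
  have := hG.isom
  obtain ⟨A₀, ρ, hA₀, hρ1, hρ, hgrow, hmain⟩ := strip_bound hG x0
  set E : ℝ := Real.exp (A₀ * (2 * ρ + 2)) with hE
  have hEpos : 0 < E := Real.exp_pos _
  set A : ℝ := A₀ + 2 * (2 * ρ + 2) * E with hA
  have hApos : 0 < A := by rw [hA]; positivity
  have hA0 : A₀ ≤ A := by
    rw [hA]
    have : 0 ≤ 2 * (2 * ρ + 2) * E := by positivity
    linarith
  refine ⟨A, hApos, ?_⟩
  by_cases hZ : HasZ2 G
  · exact Or.inl hZ
  refine Or.inr fun g τ hτ => ?_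
  have hexp : Real.exp (A₀ * τ) ≤ Real.exp (A * τ) :=
    Real.exp_le_exp.2 (mul_le_mul_of_nonneg_right hA0 hτ.le)
  constructor
  · intro c c' hc hc'
    obtain ⟨e, he, -, hb⟩ := hmain hZ g τ hτ c hc
    have p := fun {x y : ℝ → X} (hx : Axis g τ x) (hy : Axis g τ y) =>
      Pool.Agent.Y901.HB.par_axes hτ hx hy
    have h1 := (dd_all X hG.cn).2.2.1 c e c' hc.1 he.1 hc'.1 (p hc he) (p he hc')
    rw [(dd_all X hG.cn).2.1 c e hc.1 he.1 (p hc he)] at h1
    have h2 := hb c hc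
    have h3 := hb c' hc'
    have h4 : Real.exp (A₀ * (2 * ρ + τ + 1)) ≤ E * Real.exp (A₀ * τ) := by
      rw [hE, ← Real.exp_add]
      apply Real.exp_le_exp.2
      nlinarith
    calc DD c c' ≤ 2 * ((2 * ρ + 2) * Real.exp (A₀ * (2 * ρ + τ + 1))) := by linarith
      _ ≤ 2 * ((2 * ρ + 2) * (E * Real.exp (A₀ * τ))) := by gcongr
      _ = (2 * (2 * ρ + 2) * E) * Real.exp (A₀ * τ) := by ring
      _ ≤ A * Real.exp (A * τ) := by
        gcongr
        rw [hA]
        linarith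
  · rintro ⟨c, hc⟩
    obtain ⟨e, he, hfix, -⟩ := hmain hZ g τ hτ c hc
    obtain ⟨b, hb⟩ := hρ (e 0)
    -- the elements which move `e 0` by at most `τ + 1`
    have hsub : ∀ γ : G, dist (γ • e 0) (e 0) ≤ τ + 1 →
        b * γ * b⁻¹ ∈ {γ : G | dist (γ • x0) x0 ≤ 2 * ρ + τ + 1} := by
      intro γ hγ
      show dist ((b * γ * b⁻¹) • x0) x0 ≤ 2 * ρ + τ + 1
      have h1 : dist ((b * γ * b⁻¹) • x0) (b • γ • e 0) ≤ ρ := by
        rw [mul_smul, mul_smul, dist_smul, dist_smul, ← dist_smul b, smul_inv_smul, dist_comm]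
        exact hb
      have h2 : dist (b • γ • e 0) (b • e 0) ≤ τ + 1 := by
        rw [dist_smul]
        exact hγ
      have h3 := dist_triangle4 ((b * γ * b⁻¹) • x0) (b • γ • e 0) (b • e 0) x0
      linarith
    obtain ⟨hfin, hcard⟩ := hgrow (2 * ρ + τ + 1) (by linarith)
    refine ⟨hfin.toFinset.image (fun γ => b⁻¹ * γ * b), ?_, ?_⟩
    · have h1 : ((hfin.toFinset.image (fun γ => b⁻¹ * γ * b)).card : ℝ) ≤ hfin.toFinset.card := by
        exact_mod_cast Finset.card_image_le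
      have h2 : (hfin.toFinset.card : ℝ) ≤ Real.exp (A₀ * (2 * ρ + τ + 1 + 1)) := by
        rwa [← Set.ncard_eq_toFinset_card _ hfin]
      have h3 : Real.exp (A₀ * (2 * ρ + τ + 1 + 1)) = E * Real.exp (A₀ * τ) := by
        rw [hE, ← Real.exp_add]
        congr 1
        ring
      calc ((hfin.toFinset.image (fun γ => b⁻¹ * γ * b)).card : ℝ)
          ≤ E * Real.exp (A₀ * τ) := (h1.trans h2).trans h3.le
        _ ≤ A * Real.exp (A * τ) := by
          gcongr
          rw [hA]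
          nlinarith
    · intro h hh
      have hax := axis_smul he hh
      have hpar := Pool.Agent.Y901.HB.par_axes hτ hax he
      obtain ⟨hd0, o, ho⟩ := (dd_all X hG.cn).1 (fun t => h • e t) e hax.1 he.1 hpar
      have h1 : DD (fun t => h • e t) e ≤ 1 := by
        rw [(dd_all X hG.cn).2.1 (fun t => h • e t) e hax.1 he.1 hpar]
        exact hfix h hh
      have h2 : dist (h • e 0) (e o) = DD (fun t => h • e t) e := by
        have h3 := ho 0 o
        rw [← sq_eq_sq₀ dist_nonneg hd0]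
        rw [h3]
        ring
      set m : ℤ := ⌊o / τ⌋ with hm
      have h3 : 0 ≤ o - m * τ := by
        have := Int.floor_le (o / τ)
        rw [le_div_iff₀ hτ] at this
        linarith
      have h4 : o - m * τ < τ := by
        have := Int.lt_floor_add_one (o / τ)
        rw [div_lt_iff₀ hτ] at this
        linarith
      refine ⟨m, (g ^ m)⁻¹ * h, ?_, by group⟩
      rw [Finset.mem_image]
      refine ⟨b * ((g ^ m)⁻¹ * h) * b⁻¹, ?_, by group⟩
      rw [Set.Finite.mem_toFinset]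
      apply hsub
      have h5 : dist (((g ^ m)⁻¹ * h) • e 0) ((g ^ m)⁻¹ • e o) ≤ 1 := by
        rw [mul_smul, dist_smul, h2]
        exact h1
      have h6 : (g ^ m)⁻¹ • e o = e (o - m * τ) := by
        rw [inv_smul_eq_iff, axis_zpow he, sub_add_cancel]
      have h7 : dist (e (o - m * τ)) (e 0) ≤ τ := by
        rw [he.1.dist_eq, Real.dist_eq, sub_zero, abs_of_nonneg h3]
        exact h4.le
      have h8 := dist_triangle (((g ^ m)⁻¹ * h) • e 0) ((g ^ m)⁻¹ • e o) (e 0)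
      rw [h6] at h8 h5
      linarith

end Pool.Agent.Q117.WS
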